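import Mathlib
import Pool.Agent.Lib_helper57.Subdiv.Tree

set_option autoImplicit false

namespace Pool.Agent.Results.MP_58b9c4_co.FullSubdivisions

/-- No loops (a `Digraph` of Mathlib has no parallel arcs; opposite arcs are allowed). -/
def Loopless {V : Type} (D : Digraph V) : Prop := ∀ v, ¬ D.Adj v v

/-- `D` has minimum out-degree at least `k`. -/
def MinOutDegreeGE {V : Type} (D : Digraph V) (k : ℕ) : Prop :=
  ∀ v, k ≤ Nat.card {w : V // D.Adj v w}

/-- The interior vertices of a path given by the list of its vertices. -/
def interior {V : Type} (l : List V) : List V := l.tail.dropLast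

/-- `l` is the list of the vertices of a directed path of `D` from `x` to `y` with at least two
arcs. -/
def IsLongPath {V : Type} (D : Digraph V) (x y : V) (l : List V) : Prop :=
  l.Nodup ∧ l.IsChain D.Adj ∧ l.head? = some x ∧ l.getLast? = some y ∧ 3 ≤ l.length

/-- A subdivision of `D'` contained in `D` all of whose subdivision paths have at least two
arcs: an injection of the vertices of `D'` into `D` and, for each arc of `D'`, a directed path of
`D` with at least two arcs, whose interior vertices are new and which are pairwise internally
disjoint. -/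
structure FullSubdivision {W V : Type} (D' : Digraph W) (D : Digraph V) where
  branch : W → V
  branch_injective : Function.Injective branch
  path : W → W → List V
  isPath : ∀ a b, D'.Adj a b → IsLongPath D (branch a) (branch b) (path a b)
  interior_new : ∀ a b c, D'.Adj a b → branch c ∉ interior (path a b)
  disjoint : ∀ a b c d, D'.Adj a b → D'.Adj c d → (a, b) ≠ (c, d) →
    List.Disjoint (interior (path a b)) (interior (path c d))

theorem mem_interior {V : Type} {l : List V} {i : ℕ} (h0 : 0 < i) (h1 : i < l.length - 1) :
    l[i] ∈ interior l := by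
  unfold interior
  rw [List.mem_iff_getElem]
  refine ⟨i - 1, ?_, ?_⟩
  · simp only [List.length_dropLast, List.length_tail]; omega
  · rw [List.getElem_dropLast, List.getElem_tail]
    congr 1
    omega

/-- For every `N` there is a finite digraph `D` with minimum out-degree at least `N` which
contains no subdivision, with all paths of at least two arcs, of any digraph of minimum
out-degree at least `3`. -/
theorem result :
    ∀ N : ℕ, ∃ (V : Type) (_ : Finite V) (_ : Nonempty V) (D : Digraph V),
      Loopless D ∧ MinOutDegreeGE D N ∧
        ∀ (W : Type) [Finite W] [Nonempty W] (D' : Digraph W),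
          Loopless D' → MinOutDegreeGE D' 3 → IsEmpty (FullSubdivision D' D) := by
  intro N
  refine ⟨Pool.Agent.Lib_helper57.Subdiv.Vx N, inferInstance, inferInstance,
    Pool.Agent.Lib_helper57.Subdiv.Dg N, Pool.Agent.Lib_helper57.Subdiv.Dg_loopless,
    fun v => le_trans (by omega) (Pool.Agent.Lib_helper57.Subdiv.Dg_deg v), ?_⟩
  intro W _ _ D' _ hdeg
  refine ⟨fun S => ?_⟩
  obtain ⟨n, ⟨e⟩⟩ := Finite.exists_equiv_fin W
  have hn : 0 < n := by
    rcases Nat.eq_zero_or_pos n with h | h
    · subst h
      exact (e (Classical.arbitrary W)).elim0
    · exact h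
  refine Pool.Agent.Lib_helper57.Subdiv.no_subdivision N n
    ⟨fun a b => D'.Adj (e.symm a) (e.symm b)⟩ hn ?_ (fun a => S.branch (e.symm a))
    (S.branch_injective.comp e.symm.injective)
    (fun a b => (S.path (e.symm a) (e.symm b)).length - 1)
    (fun a b i => (S.path (e.symm a) (e.symm b)).getD i (S.branch (e.symm a))) ?_ ?_
  · intro a
    refine (hdeg (e.symm a)).trans (le_of_eq (Nat.card_congr ?_))
    exact
      { toFun := fun w => ⟨e w.1, by simpa using w.2⟩
        invFun := fun b => ⟨e.symm b.1, b.2⟩
        left_inv := fun w => by simp
        right_inv := fun b => by simp }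
  · intro a b hab
    obtain ⟨hnd, hch, hhd, hlast, hlen⟩ := S.isPath _ _ hab
    have hnew := S.interior_new (e.symm a) (e.symm b)
    set l := S.path (e.symm a) (e.symm b) with hl
    refine ⟨by omega, ?_, ?_, ?_, ?_⟩
    · rw [List.getD_eq_getElem _ _ (by omega : 0 < l.length)]
      rw [List.head?_eq_getElem?, List.getElem?_eq_getElem (by omega)] at hhd
      exact Option.some.inj hhd
    · rw [List.getD_eq_getElem _ _ (by omega : l.length - 1 < l.length)]
      rw [List.getLast?_eq_getElem?, List.getElem?_eq_getElem (by omega)] at hlast
      exact Option.some.inj hlast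
    · intro i hi
      rw [List.getD_eq_getElem _ _ (by omega : i < l.length),
        List.getD_eq_getElem _ _ (by omega : i + 1 < l.length)]
      exact List.isChain_iff_getElem.mp hch i (by omega)
    · intro i c h0 hi
      rw [List.getD_eq_getElem _ _ (by omega : i < l.length)]
      intro h
      exact hnew (e.symm c) hab (h ▸ mem_interior h0 hi)
  · intro a b c d i j hab hcd h0 hi h0' hj h
    obtain ⟨hnd, -⟩ := S.isPath _ _ hab
    rw [List.getD_eq_getElem _ _ (by omega :
        i < (S.path (e.symm a) (e.symm b)).length),
      List.getD_eq_getElem _ _ (by omega :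
        j < (S.path (e.symm c) (e.symm d)).length)] at h
    by_cases hne : (e.symm a, e.symm b) = (e.symm c, e.symm d)
    · obtain ⟨h1, h2⟩ := Prod.mk.inj hne
      have hac : a = c := e.symm.injective h1
      have hbd : b = d := e.symm.injective h2
      subst hac
      subst hbd
      exact ⟨rfl, rfl, (List.Nodup.getElem_inj_iff hnd).mp h⟩
    · exact (S.disjoint _ _ _ _ hab hcd hne (mem_interior h0 hi)
        (h ▸ mem_interior h0' hj)).elim

end Pool.Agent.Results.MP_58b9c4_co.FullSubdivisions
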